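import Mathlib
import Pool.Agent.N964.MX.K6
import Pool.Agent.N692.GXLM

/-!
# The size of the Mertens and Liouville sums under the Riemann hypothesis

Let `M(x) = ∑_{n ≤ x} μ(n)` and `L(x) = ∑_{n ≤ x} λ(n)`. We prove that the Riemann hypothesis holds if and only if

  `|M(x)| ≤ √x exp (C √(log x) / log log x)`    (`x ≥ 3`)

for some constant `C`, and if and only if the same holds for `L(x)`. Known were `M(x) ≪ √x exp(c log x / log log x)`
(Titchmarsh), `√x exp((log x)^(39/61))` (Maier and Montgomery), `√x exp(√(log x) (log log x)^14)` (Soundararajan) and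
`√x exp(√(log x) (log log x)^(5/2 + ε))` (Balazard and de Roton) under the Riemann hypothesis.

Proof. (Modules `Pool.Agent.N964.MX`.)

1. (Explicit formula.) A contour integral of `ζ'/ζ` times `(cosh(l w) - 1) / (w² - s²)`, a kernel which is nonpositive at
   all zeros on the line, gives, after an integration over the distance from the critical line,
   `log 1/|ζ(1/2 + δ + it)| ≤ (log t / l) log(1 + 1/(l δ)) + |prime polynomial| + O(log l + log(1 + 1/(lδ)))`.
2. (Moments.) `l = log T / V`, and `V` is chosen for every `t` as small as possible such that the pieces of the prime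
   polynomial are small compared with `V`; high moments of the pieces bound the measure of the `t` for which `V` is
   large. So the mean of `1/|ζ(1/2 + δ + it)|` over `[0, T]` is at most `exp(C / (δ log(1/δ)^2))`
   for `log T ≤ δ^(-3)`.
3. (Perron's formula) on the line `1/2 + δ` with `δ = 1 / (√(log x) log log x)`.
4. `L(x) = ∑_d M(x/d²)` and `M(x) = ∑_d μ(d) L(x/d²)` (helper 692).
-/

set_option autoImplicit false

namespace Pool.Agent.Results.MP_a499ba_nt.MertensBound

/-- the Mertens function `M(x) = ∑_{1 ≤ n ≤ x} μ(n)` -/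
noncomputable def mertens (x : ℝ) : ℝ := ∑ n ∈ Finset.Icc 1 ⌊x⌋₊, ((ArithmeticFunction.moebius n : ℤ) : ℝ)

/-- the sum `L(x) = ∑_{1 ≤ n ≤ x} λ(n)` of the Liouville function `λ(n) = (-1)^Ω(n)` -/
noncomputable def liouville (x : ℝ) : ℝ := ∑ n ∈ Finset.Icc 1 ⌊x⌋₊, (-1 : ℝ) ^ (ArithmeticFunction.cardFactors n)

/-- **Theorem.** The Riemann hypothesis, the bound for the Mertens function and the bound for the sum of the Liouville
function are equivalent. -/
theorem result :
    (RiemannHypothesis ↔ ∃ C : ℝ, ∀ x : ℝ, 3 ≤ x →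
      |mertens x| ≤ Real.sqrt x * Real.exp (C * (Real.sqrt (Real.log x) / Real.log (Real.log x)))) ∧
    (RiemannHypothesis ↔ ∃ C : ℝ, ∀ x : ℝ, 3 ≤ x →
      |liouville x| ≤ Real.sqrt x * Real.exp (C * (Real.sqrt (Real.log x) / Real.log (Real.log x)))) :=
  ⟨Pool.Agent.N964.MX.rh_iff2, Pool.Agent.N964.MX.rh_iff2.trans Pool.Agent.N692.GXLM.lm⟩

end Pool.Agent.Results.MP_a499ba_nt.MertensBound
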