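import Pool.Agent.R303.SW.Mo
import Pool.Agent.W190.A17

/-!
# The Mertens function on single windows

`M(x) = ∑_{n ≤ x} μ(n)`, `F(x) = x^(1/2) (log log log x)^(5/4)`, as in Q1.

1. If `ζ` has a zero with real part `> θ ≥ 1/2`, then for all `κ ≥ 0` with `4θ(1-θ)(κ+1) ≤ 1`, all
   `c > 0`, all `δ < 1` and all large `x`, `∫_x^{x + cx/(log x)^κ} |M(y) - P(y)| dy > x^(1+θ)` for all real
   polynomials `P` of degree at most `(log x)^δ`.
2. For `c > 0` and `δ < 1` the Riemann hypothesis holds if and only if for every `ε > 0` there are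
   arbitrarily large `x` and polynomials `P` of degree at most `(log x)^δ` with
   `∫_x^{(1+c)x} |M(y) - P(y)| dy ≤ x^(3/2+ε)`.
3. In particular, if for some `K` and arbitrarily large `x` there are such polynomials with
   `|M(y) - P(y)| ≤ K F(y)` for all `y` in `[x, (1+c)x]` (one window at each of infinitely many scales,
   instead of all large `y` and `P = 0` as in Q1), then the Riemann hypothesis holds.

Part 1 is the theorem `Pool.Agent.W190.moebius_window` of the starting library, which had not been handed in. The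
hand-in `LiouvilleWindows` of the starting files is about the other function `L(x)` of the problem (Q2).
-/


set_option autoImplicit false
set_option maxHeartbeats 4000000

open Filter Topology Set MeasureTheory
open Pool.Agent.W190 (SF rh_free)
open Pool.Agent.R303.SW

namespace Pool.Agent.Results.MP_a499ba_nt.MertensWindows

/-- `M(x)`, the sum of the Möbius function over the positive integers `n ≤ x` -/
noncomputable def Msum (x : ℝ) : ℝ :=
  ∑ n ∈ Finset.Icc 1 ⌊x⌋₊, ((ArithmeticFunction.moebius n : ℤ) : ℝ)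

/-- `F(x) = x^(1/2) (log log log x)^(5/4)` -/
noncomputable def F (x : ℝ) : ℝ := x ^ (1 / 2 : ℝ) * Real.log (Real.log (Real.log x)) ^ (5 / 4 : ℝ)

lemma Msum_eq (x : ℝ) : Msum x = SF muR x := rfl

theorem part1 (θ κ c δ : ℝ) (hθ : 1 / 2 ≤ θ) (hκ : 0 ≤ κ) (hcond : 4 * θ * (1 - θ) * (κ + 1) ≤ 1)
    (hc : 0 < c) (hδ : δ < 1) (hz : ∃ s : ℂ, riemannZeta s = 0 ∧ θ < s.re) :
    ∀ᶠ x : ℝ in atTop, ∀ P : Polynomial ℝ, (P.natDegree : ℝ) ≤ Real.log x ^ δ →
      x ^ (1 + θ) < ∫ y in x..(x + c * x / Real.log x ^ κ), |Msum y - P.eval y| := by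
  exact Pool.Agent.W190.moebius_window hκ hc hδ hθ hcond hz

theorem part2a (c δ : ℝ) (hc : 0 < c) (hrh : RiemannHypothesis) (ε : ℝ) (hε : 0 < ε) :
    ∃ᶠ x : ℝ in atTop, ∃ P : Polynomial ℝ, (P.natDegree : ℝ) ≤ Real.log x ^ δ ∧
      ∫ y in x..((1 + c) * x), |Msum y - P.eval y| ≤ x ^ (3 / 2 + ε) := by
  obtain ⟨C, hC⟩ := H353.mertens_of_free (1 / 2) le_rfl (rh_free.1 hrh) (1 / 2 + ε / 2) (by linarith)
  have hC0 : 0 ≤ C := by
    have := (abs_nonneg _).trans (hC 1 le_rfl)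
    simpa using this
  have t1 : ∀ᶠ x : ℝ in atTop, C * (1 + c) ^ (1 / 2 + ε / 2) * c ≤ x ^ (ε / 2) :=
    (tendsto_rpow_atTop (by linarith)).eventually_ge_atTop _
  refine Eventually.frequently ?_
  filter_upwards [t1, eventually_ge_atTop (1:ℝ), Real.tendsto_log_atTop.eventually_ge_atTop 0] with x g1 g2 g3
  have hx : 0 < x := by linarith
  refine ⟨0, by simpa using Real.rpow_nonneg g3 δ, ?_⟩
  have hle : x ≤ (1 + c) * x := by nlinarith
  have h1 : ∫ y in x..((1 + c) * x), |Msum y - (0 : Polynomial ℝ).eval y| ≤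
      ∫ y in x..((1 + c) * x), C * ((1 + c) * x) ^ (1 / 2 + ε / 2) := by
    simp only [Polynomial.eval_zero, sub_zero]
    refine intervalIntegral.integral_mono_on hle (SF_II muR _ _).abs intervalIntegrable_const fun y hy => ?_
    refine (hC y (by linarith [hy.1])).trans ?_
    exact mul_le_mul_of_nonneg_left (Real.rpow_le_rpow (by linarith [hy.1]) hy.2 (by linarith)) hC0
  refine h1.trans ?_
  rw [intervalIntegral.integral_const, smul_eq_mul, Real.mul_rpow (by linarith) hx.le]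
  calc ((1 + c) * x - x) * (C * ((1 + c) ^ (1 / 2 + ε / 2) * x ^ (1 / 2 + ε / 2)))
      = C * (1 + c) ^ (1 / 2 + ε / 2) * c * (x ^ (1 / 2 + ε / 2) * x) := by ring
    _ ≤ x ^ (ε / 2) * (x ^ (1 / 2 + ε / 2) * x) := by gcongr
    _ = x ^ (3 / 2 + ε) := by
        rw [← Real.rpow_add_one hx.ne', ← Real.rpow_add hx]
        congr 1
        ring

theorem part2b (c δ : ℝ) (hc : 0 < c) (hδ : δ < 1)
    (h : ∀ ε : ℝ, 0 < ε → ∃ᶠ x : ℝ in atTop, ∃ P : Polynomial ℝ, (P.natDegree : ℝ) ≤ Real.log x ^ δ ∧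
      ∫ y in x..((1 + c) * x), |Msum y - P.eval y| ≤ x ^ (3 / 2 + ε)) : RiemannHypothesis := by
  rw [rh_free]
  intro s hs hz
  set θ := (1 / 2 + s.re) / 2 with hθ
  have h1 : 1 / 2 < θ := by rw [hθ]; linarith
  have h2 : θ < s.re := by rw [hθ]; linarith
  have h3 := part1 θ 0 c δ h1.le le_rfl (by nlinarith [sq_nonneg (2 * θ - 1)]) hc hδ ⟨s, hz, h2⟩
  obtain ⟨x, ⟨P, a1, a2⟩, a3, a4⟩ := ((h (θ - 1 / 2) (by linarith)).and_eventually
    (h3.and (eventually_gt_atTop 1))).exists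
  have a5 := a3 P a1
  rw [Real.rpow_zero, div_one, show x + c * x = (1 + c) * x by ring] at a5
  have a6 := a5.trans_le a2
  rw [show (3:ℝ) / 2 + (θ - 1 / 2) = 1 + θ by ring] at a6
  exact lt_irrefl _ a6

/-- `F(y) ≤ y^(1/2+ε)` for all large `y` -/
lemma F_le (ε : ℝ) (hε : 0 < ε) : ∀ᶠ y : ℝ in atTop, F y ≤ y ^ (1 / 2 + ε) := by
  have t1 : ∀ᶠ y : ℝ in atTop, Real.log y ≤ y ^ (ε * (4 / 5)) := by
    have h := (isLittleO_log_rpow_atTop (show 0 < ε * (4 / 5) by positivity)).bound (show (0:ℝ) < 1 by norm_num)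
    filter_upwards [h, eventually_ge_atTop 1] with y hy hy1
    rw [one_mul, Real.norm_eq_abs, Real.norm_eq_abs, abs_of_nonneg (Real.log_nonneg hy1),
      abs_of_nonneg (Real.rpow_nonneg (by linarith) _)] at hy
    exact hy
  have t2 : Tendsto (fun y : ℝ => Real.log (Real.log (Real.log y))) atTop atTop :=
    Real.tendsto_log_atTop.comp (Real.tendsto_log_atTop.comp Real.tendsto_log_atTop)
  have t3 : Tendsto (fun y : ℝ => Real.log (Real.log y)) atTop atTop :=
    Real.tendsto_log_atTop.comp Real.tendsto_log_atTop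
  filter_upwards [t1, t2.eventually_ge_atTop 0, t3.eventually_ge_atTop 1,
    Real.tendsto_log_atTop.eventually_ge_atTop 1, eventually_ge_atTop 1] with y a1 a2 a3 a4 a5
  have hy : 0 < y := by linarith
  have b1 : Real.log (Real.log (Real.log y)) ≤ Real.log y := by
    have h1 := Real.log_le_sub_one_of_pos (show 0 < Real.log (Real.log y) by linarith)
    have h2 := Real.log_le_sub_one_of_pos (show 0 < Real.log y by linarith)
    linarith
  unfold F
  calc y ^ (1 / 2 : ℝ) * Real.log (Real.log (Real.log y)) ^ (5 / 4 : ℝ)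
      ≤ y ^ (1 / 2 : ℝ) * (y ^ (ε * (4 / 5))) ^ (5 / 4 : ℝ) := by
        refine mul_le_mul_of_nonneg_left ?_ (by positivity)
        exact Real.rpow_le_rpow a2 (b1.trans a1) (by norm_num)
    _ = y ^ (1 / 2 + ε) := by
        rw [← Real.rpow_mul hy.le, ← Real.rpow_add hy]
        congr 1
        ring

theorem part3 (c δ K : ℝ) (hc : 0 < c) (hδ : δ < 1)
    (h : ∃ᶠ x : ℝ in atTop, ∃ P : Polynomial ℝ, (P.natDegree : ℝ) ≤ Real.log x ^ δ ∧
      ∀ y ∈ Icc x ((1 + c) * x), |Msum y - P.eval y| ≤ K * F y) : RiemannHypothesis := by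
  refine part2b c δ hc hδ fun ε hε => ?_
  have t1 : ∀ᶠ x : ℝ in atTop, |K| * (1 + c) ^ (1 / 2 + ε / 2) * c ≤ x ^ (ε / 2) :=
    (tendsto_rpow_atTop (by linarith)).eventually_ge_atTop _
  obtain ⟨y₀, hy₀⟩ := eventually_atTop.1 (F_le (ε / 2) (by linarith))
  have t4 : ∀ᶠ y : ℝ in atTop, 0 ≤ F y := by
    have t2 : Tendsto (fun y : ℝ => Real.log (Real.log (Real.log y))) atTop atTop :=
      Real.tendsto_log_atTop.comp (Real.tendsto_log_atTop.comp Real.tendsto_log_atTop)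
    filter_upwards [t2.eventually_ge_atTop 0, eventually_ge_atTop 0] with y b1 b2
    unfold F
    positivity
  obtain ⟨y₁, hy₁⟩ := eventually_atTop.1 t4
  refine (h.and_eventually (t1.and ((eventually_ge_atTop y₀).and
    ((eventually_ge_atTop y₁).and (eventually_ge_atTop 1))))).mono ?_
  rintro x ⟨⟨P, hP, hx⟩, g1, g2, g3, g4⟩
  have hx0 : 0 < x := by linarith
  refine ⟨P, hP, ?_⟩
  have hle : x ≤ (1 + c) * x := by nlinarith
  have h1 : ∫ y in x..((1 + c) * x), |Msum y - P.eval y| ≤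
      ∫ y in x..((1 + c) * x), |K| * ((1 + c) * x) ^ (1 / 2 + ε / 2) := by
    refine intervalIntegral.integral_mono_on hle
      ((SF_II muR _ _).sub (P.continuous.intervalIntegrable _ _)).abs intervalIntegrable_const fun y hy => ?_
    have b1 := hy₀ y (by linarith [hy.1])
    have b2 := hy₁ y (by linarith [hy.1])
    calc |Msum y - P.eval y| ≤ K * F y := hx y hy
      _ ≤ |K| * F y := mul_le_mul_of_nonneg_right (le_abs_self K) b2
      _ ≤ |K| * y ^ (1 / 2 + ε / 2) := mul_le_mul_of_nonneg_left b1 (abs_nonneg K)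
      _ ≤ _ := mul_le_mul_of_nonneg_left (Real.rpow_le_rpow (by linarith [hy.1]) hy.2 (by linarith))
          (abs_nonneg K)
  refine h1.trans ?_
  rw [intervalIntegral.integral_const, smul_eq_mul, Real.mul_rpow (by linarith) hx0.le]
  calc ((1 + c) * x - x) * (|K| * ((1 + c) ^ (1 / 2 + ε / 2) * x ^ (1 / 2 + ε / 2)))
      = |K| * (1 + c) ^ (1 / 2 + ε / 2) * c * (x ^ (1 / 2 + ε / 2) * x) := by ring
    _ ≤ x ^ (ε / 2) * (x ^ (1 / 2 + ε / 2) * x) := by gcongr
    _ = x ^ (3 / 2 + ε) := by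
        rw [← Real.rpow_add_one hx0.ne', ← Real.rpow_add hx0]
        congr 1
        ring

/-- The Mertens function on single windows. -/
theorem result :
    (∀ θ κ c δ : ℝ, 1 / 2 ≤ θ → 0 ≤ κ → 4 * θ * (1 - θ) * (κ + 1) ≤ 1 → 0 < c → δ < 1 →
      (∃ s : ℂ, riemannZeta s = 0 ∧ θ < s.re) →
      ∀ᶠ x : ℝ in atTop, ∀ P : Polynomial ℝ, (P.natDegree : ℝ) ≤ Real.log x ^ δ →
        x ^ (1 + θ) < ∫ y in x..(x + c * x / Real.log x ^ κ), |Msum y - P.eval y|) ∧
    (∀ c δ : ℝ, 0 < c → δ < 1 → (RiemannHypothesis ↔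
      ∀ ε : ℝ, 0 < ε → ∃ᶠ x : ℝ in atTop, ∃ P : Polynomial ℝ, (P.natDegree : ℝ) ≤ Real.log x ^ δ ∧
        ∫ y in x..((1 + c) * x), |Msum y - P.eval y| ≤ x ^ (3 / 2 + ε))) ∧
    (∀ c δ K : ℝ, 0 < c → δ < 1 →
      (∃ᶠ x : ℝ in atTop, ∃ P : Polynomial ℝ, (P.natDegree : ℝ) ≤ Real.log x ^ δ ∧
        ∀ y ∈ Icc x ((1 + c) * x), |Msum y - P.eval y| ≤ K * F y) → RiemannHypothesis) :=
  ⟨part1, fun c δ hc hδ => ⟨part2a c δ hc, part2b c δ hc hδ⟩, part3⟩

end Pool.Agent.Results.MP_a499ba_nt.MertensWindows
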