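import Pool.Agent.N739.OW.Lam

/-!
# One-sided bounds for the summatory function of the Liouville function

Let `L(u) = ∑_{n ≤ u} λ(n)`, `s = 1` or `s = -1`, `F(u) = u^(1/2) (log log log u)^(5/4)`, and for `1/2 < σ < 1` let
`Z(σ) = ∑ m(ρ) / Im ρ` over the distinct zeros `ρ` of `ζ` with `Re ρ ≥ σ` and `Im ρ > 0`, `m(ρ)` the multiplicity
(a convergent sum; it is `0` if there are no such zeros). We prove unconditionally:

1. If `log A > π Z(σ)` then for every zero `ρ` with `Re ρ > σ` and every `ε > 0`, for ALL large `X`,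
   `∫_X^{AX} max(s L(u), 0) du ≥ X^(1 + Re ρ - ε)` for both signs.
2. If moreover `ζ` has no zeros with real part `> σ₀` then for all large `X` the set of the `u ∈ [X, AX]` with
   `s L(u) ≥ u^(Re ρ - ε)` has measure at least `X^(1 - (σ₀ - Re ρ) - ε)`: if `Re ρ` is (near) the supremum, both
   signs appear with nearly the maximal order of magnitude on a set of measure `X^(1-ε)` in EVERY window.
3. `ζ` has a zero-free half-plane `Re z > σ₀`, `σ₀ < 1`, if and only if for one `A > 1` and one `δ > 0` there are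
   arbitrarily large `X` with `∫_X^{AX} max(s L(u), 0) du ≤ X^(2-δ)`.
4. The Riemann hypothesis holds if and only if for all `A > 1` and `ε > 0` there are arbitrarily large `X` with
   `∫_X^{AX} max(s L(u), 0) du ≤ X^(3/2+ε)`.
5. If for one `A > 1` and one `K` the one-sided bound `s L(u) ≤ K F(u)` holds on `[X, AX]` for arbitrarily large `X`,
   then `ζ` has a zero-free half-plane; if this is true for every `A > 1` (with a `K` depending on `A`), the Riemann
   hypothesis holds. With `s = 1`, `K = 0` this is the inequality of Pólya's (false) conjecture on an arbitrarily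
   sparse sequence of windows `[X, AX]`.

Proof of 1. There is a NONDECREASING smooth cutoff `W` (`0` on `(-∞, 1]`, `1` on `[A, ∞)`) with
`∑ μ(n) W(x/n) ≪ x^θ`, `σ < θ < Re ρ`; as `λ` is the convolution of `μ` with the indicator of the squares and
`θ > 1/2`, the same bound holds for `λ`. By partial summation `∑ λ(n) W(x/n)` is a mean of `L` over `[x/A, x]` with
NONNEGATIVE weights, so the positive and the negative part of `L` have the same mean up to `x^θ`, and the mean of `|L|`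
is large by the two-sided theorem of the starting file `LiouvilleWindows`.
-/

set_option autoImplicit false

open MeasureTheory Filter Topology Set

namespace Pool.Agent.Results.MP_a499ba_nt.OneSidedLiouville

/-- The summatory function `L` of the Liouville function. -/
noncomputable def L (u : ℝ) : ℝ :=
  ∑ n ∈ Finset.Icc 1 ⌊u⌋₊, ((ArithmeticFunction.liouville n : ℤ) : ℝ)

/-- `F(u) = u^(1/2) (log log log u)^(5/4)`. -/
noncomputable def F (u : ℝ) : ℝ := u ^ (1 / 2 : ℝ) * Real.log (Real.log (Real.log u)) ^ (5 / 4 : ℝ)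

/-- The (distinct) zeros of `ζ` with `Re ρ ≥ σ` and `Im ρ > 0`. -/
def Zeros (σ : ℝ) : Type := {ρ : ℂ // riemannZeta ρ = 0 ∧ σ ≤ ρ.re ∧ 0 < ρ.im}

/-- The summands `m(ρ) / Im ρ`, `m(ρ)` the order of the zero. -/
noncomputable def term (σ : ℝ) (ρ : Zeros σ) : ℝ :=
  (analyticOrderNatAt riemannZeta ρ.val : ℝ) / ρ.val.im

/-- `Z(σ)`, the sum of `m(ρ) / Im ρ` over the zeros `ρ` of `ζ` with `Re ρ ≥ σ` and `Im ρ > 0`. -/
noncomputable def zeroSum (σ : ℝ) : ℝ := ∑' ρ : Zeros σ, term σ ρ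

/-- `∫_X^{AX} max(s L(u), 0) du`. -/
noncomputable def part (s A X : ℝ) : ℝ := ∫ u in X..(A * X), max (s * L u) 0

/-- The measure of the set of the `u ∈ [X, AX]` with `s L(u) ≥ u^β`. -/
noncomputable def largeSet (s A X β : ℝ) : ℝ :=
  (volume {u : ℝ | u ∈ Icc X (A * X) ∧ u ^ β ≤ s * L u}).toReal

/-- `ζ` has no zeros with real part greater than `σ`. -/
def ZeroFree (σ : ℝ) : Prop := ∀ z : ℂ, σ < z.re → riemannZeta z ≠ 0

lemma part_of_bound {s : ℝ} (hs : s = 1 ∨ s = -1) {A K ε : ℝ} (hA : 1 < A) (hε : 0 < ε)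
    (h : ∃ᶠ X : ℝ in atTop, ∀ u ∈ Icc X (A * X), s * L u ≤ K * F u) :
    ∃ᶠ X : ℝ in atTop, part s A X ≤ X ^ (3 / 2 + ε) := by
  have t1 : ∀ᶠ x : ℝ in atTop, |K| * A ^ (1 / 2 + ε / 2) * (A - 1) ≤ x ^ (ε / 2) :=
    (tendsto_rpow_atTop (by linarith)).eventually_ge_atTop _
  obtain ⟨y₀, hy₀⟩ := eventually_atTop.1 (Pool.Agent.Results.MP_a499ba_nt.LiouvilleWindows.F_le (ε / 2) (by linarith))
  have t4 : ∀ᶠ y : ℝ in atTop, 0 ≤ F y := by
    have t2 : Tendsto (fun y : ℝ => Real.log (Real.log (Real.log y))) atTop atTop :=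
      Real.tendsto_log_atTop.comp (Real.tendsto_log_atTop.comp Real.tendsto_log_atTop)
    filter_upwards [t2.eventually_ge_atTop 0, eventually_ge_atTop 0] with y b1 b2
    unfold F
    positivity
  obtain ⟨y₁, hy₁⟩ := eventually_atTop.1 t4
  refine (h.and_eventually (t1.and ((eventually_ge_atTop y₀).and
    ((eventually_ge_atTop y₁).and (eventually_ge_atTop 1))))).mono ?_
  rintro x ⟨hx, g1, g2, g3, g4⟩
  have hx0 : 0 < x := by linarith
  have hle : x ≤ A * x := by nlinarith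
  have h1 : part s A x ≤ ∫ y in x..(A * x), |K| * (A * x) ^ (1 / 2 + ε / 2) := by
    refine intervalIntegral.integral_mono_on hle
      (Pool.Agent.N739.OW.pos_int Pool.Agent.R303.SW.laR s _ _ hs) intervalIntegrable_const fun y hy => ?_
    have b1 := hy₀ y (by linarith [hy.1])
    have b2 := hy₁ y (by linarith [hy.1])
    have b0 : 0 ≤ |K| * (A * x) ^ (1 / 2 + ε / 2) := by positivity
    refine max_le ?_ b0
    calc s * L y ≤ K * F y := hx y hy
      _ ≤ |K| * F y := mul_le_mul_of_nonneg_right (le_abs_self K) b2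
      _ ≤ |K| * y ^ (1 / 2 + ε / 2) := mul_le_mul_of_nonneg_left b1 (abs_nonneg K)
      _ ≤ _ := mul_le_mul_of_nonneg_left (Real.rpow_le_rpow (by linarith [hy.1]) hy.2 (by linarith))
          (abs_nonneg K)
  refine h1.trans ?_
  rw [intervalIntegral.integral_const, smul_eq_mul, Real.mul_rpow (by linarith) hx0.le]
  calc (A * x - x) * (|K| * (A ^ (1 / 2 + ε / 2) * x ^ (1 / 2 + ε / 2)))
      = |K| * A ^ (1 / 2 + ε / 2) * (A - 1) * (x ^ (1 / 2 + ε / 2) * x) := by ring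
    _ ≤ x ^ (ε / 2) * (x ^ (1 / 2 + ε / 2) * x) := by gcongr
    _ = x ^ (3 / 2 + ε) := by
        rw [← Real.rpow_add_one hx0.ne', ← Real.rpow_add hx0]
        congr 1
        ring

/-- **Main theorem.** -/
theorem result (s : ℝ) (hs : s = 1 ∨ s = -1) :
    (∀ σ : ℝ, 1 / 2 < σ → σ < 1 → Summable (term σ) ∧
      ∀ A : ℝ, 1 < A → Real.pi * zeroSum σ < Real.log A →
        ∀ ρ : ℂ, riemannZeta ρ = 0 → σ < ρ.re → ∀ ε : ℝ, 0 < ε →
          (∀ᶠ X : ℝ in atTop, X ^ (1 + ρ.re - ε) ≤ part s A X) ∧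
          ∀ σ₀ : ℝ, 1 / 2 ≤ σ₀ → ZeroFree σ₀ →
            ∀ᶠ X : ℝ in atTop, X ^ (1 + ρ.re - σ₀ - ε) ≤ largeSet s A X (ρ.re - ε)) ∧
    ((∃ σ₀ : ℝ, σ₀ < 1 ∧ ZeroFree σ₀) ↔
      ∃ A δ : ℝ, 1 < A ∧ 0 < δ ∧ ∃ᶠ X : ℝ in atTop, part s A X ≤ X ^ (2 - δ)) ∧
    (RiemannHypothesis ↔
      ∀ A ε : ℝ, 1 < A → 0 < ε → ∃ᶠ X : ℝ in atTop, part s A X ≤ X ^ (3 / 2 + ε)) ∧
    ((∃ A K : ℝ, 1 < A ∧ ∃ᶠ X : ℝ in atTop, ∀ u ∈ Icc X (A * X), s * L u ≤ K * F u) →
      ∃ σ₀ : ℝ, σ₀ < 1 ∧ ZeroFree σ₀) ∧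
    ((∀ A : ℝ, 1 < A → ∃ K : ℝ, ∃ᶠ X : ℝ in atTop, ∀ u ∈ Icc X (A * X), s * L u ≤ K * F u) →
      RiemannHypothesis) := by
  refine ⟨fun σ h1 h2 => ⟨Pool.Agent.N739.OW.hsum_summable h1 h2, fun A hA0 hA ρ hz hρ ε hε => ⟨?_, ?_⟩⟩, ?_, ?_,
    ?_, ?_⟩
  · exact Pool.Agent.N739.OW.inp_la.one h1 h2 (by linarith) hA hz hρ hε hs
  · intro σ₀ hσ₀ hfree
    exact Pool.Agent.N739.OW.inp_la.meas h1 h2 hA0 hA hz hρ hσ₀ hfree hε hs
  · exact Pool.Agent.N739.OW.inp_la.quasi hs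
  · exact Pool.Agent.N739.OW.inp_la.rh hs
  · rintro ⟨A, K, hA, h⟩
    refine (Pool.Agent.N739.OW.inp_la.quasi hs).2 ⟨A, 1 / 4, hA, by norm_num, ?_⟩
    have := part_of_bound hs hA (show (0 : ℝ) < 1 / 4 by norm_num) h
    rw [show (3 / 2 + 1 / 4 : ℝ) = 2 - 1 / 4 by norm_num] at this
    exact this
  · intro h
    refine (Pool.Agent.N739.OW.inp_la.rh hs).2 fun A ε hA hε => ?_
    obtain ⟨K, hK⟩ := h A hA
    exact part_of_bound hs hA hε hK

end Pool.Agent.Results.MP_a499ba_nt.OneSidedLiouville
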