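import Pool.Agent.H353R3.S8

/-!
# The Mertens function with smooth cutoffs

A cutoff of ratio `A > 1` is a smooth function `W` on the real line with `W = 0` on `(-∞, 1]` and `W = 1` on
`[A, ∞)`. The Mertens function `M(x) = ∑_{n ≤ x} μ(n)` is replaced by `M_W(x) = ∑_{n ≤ x} μ(n) W(x / n)`; only the
terms with `x / A < n ≤ x` are changed. Unconditionally, for `1/2 < θ < 1`:

1. for EVERY `A > 1`, arbitrarily close to `1`, some cutoff `W` of ratio `A` has `M_W(x) = O(x ^ θ)`;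
2. some MONOTONE cutoff of ratio `A(θ)` has this property, where `A(θ)` tends to `1` for `θ → 1`;
3. for `1/2 ≤ θ₀ < 1`, monotone cutoffs with this property exist for all `A > 1` and all `θ > θ₀` if and only if
   `M(x) = O(x ^ θ)` for all `θ > θ₀`; for `θ₀ = 1/2` this is the Riemann hypothesis.

So square root size of `M` is a matter of the sharp cutoff, and of the positivity of the weights.

The theorem is `H353.main_mu` of the library file `Pool.Agent.H353R3.S8` (not handed in); a kept hand-in for another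
problem (`MP_5a4862_nt.MonotoneCutoffs`) is about primes and monotone cutoffs.
-/

set_option autoImplicit false

open Filter Topology
open scoped ContDiff

namespace Pool.Agent.Results.MP_a499ba_nt.SmoothCutoffs

/-- A smooth cutoff of ratio `A`: zero on `(-∞, 1]` and one on `[A, ∞)`. -/
def IsCutoff (A : ℝ) (W : ℝ → ℝ) : Prop :=
  ContDiff ℝ ∞ W ∧ (∀ y ≤ 1, W y = 0) ∧ ∀ y, A ≤ y → W y = 1

/-- `∑_{n ≤ x} μ(n) W(x / n) = O(x ^ θ)` for `x ≥ 1`. -/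
def SmoothBound (θ : ℝ) (W : ℝ → ℝ) : Prop :=
  ∃ C : ℝ, ∀ x : ℝ, 1 ≤ x →
    |∑ n ∈ Finset.Icc 1 ⌊x⌋₊, (ArithmeticFunction.moebius n : ℝ) * W (x / n)| ≤ C * x ^ θ

/-- `M(x) = O(x ^ θ)` for `x ≥ 1`. -/
def SharpBound (θ : ℝ) : Prop :=
  ∃ C : ℝ, ∀ x : ℝ, 1 ≤ x →
    |∑ n ∈ Finset.Icc 1 ⌊x⌋₊, (ArithmeticFunction.moebius n : ℝ)| ≤ C * x ^ θ

/-- **The Mertens function with smooth cutoffs.** -/
theorem result :
    (∀ θ A : ℝ, 1 / 2 < θ → θ < 1 → 1 < A → ∃ W, IsCutoff A W ∧ SmoothBound θ W) ∧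
    (∃ A : ℝ → ℝ, Tendsto A (𝓝[<] 1) (𝓝 1) ∧ ∀ θ : ℝ, 1 / 2 < θ → θ < 1 →
      ∃ W, IsCutoff (A θ) W ∧ Monotone W ∧ SmoothBound θ W) ∧
    (∀ θ₀ : ℝ, 1 / 2 ≤ θ₀ → θ₀ < 1 →
      ((∀ θ A : ℝ, θ₀ < θ → θ < 1 → 1 < A → ∃ W, IsCutoff A W ∧ Monotone W ∧ SmoothBound θ W) ↔
        ∀ θ : ℝ, θ₀ < θ → SharpBound θ)) ∧
    ((∀ θ A : ℝ, 1 / 2 < θ → θ < 1 → 1 < A → ∃ W, IsCutoff A W ∧ Monotone W ∧ SmoothBound θ W) ↔
      RiemannHypothesis) := by
  have h := H353.main_mu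
  refine ⟨h.1, h.2.1, h.2.2, ?_⟩
  rw [← H353.main_fa.2.2]
  constructor
  · intro k r A h1 h2 hA
    obtain ⟨W, a, b, c⟩ := k r A h1 h2 hA
    exact ⟨W, a, b, (H353.bdF_iff r h1 hA a).2 c⟩
  · intro k r A h1 h2 hA
    obtain ⟨W, a, b, c⟩ := k r A h1 h2 hA
    exact ⟨W, a, b, (H353.bdF_iff r h1 hA a).1 c⟩

end Pool.Agent.Results.MP_a499ba_nt.SmoothCutoffs
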